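import Pool.Agent.T9h35.AV.Main

/-!
# Average-case hardness of clique for all circuits, measured by the changes along a random chain

A circuit is a straight-line program whose gates compute real numbers.  Gates of the first kind
compute an arbitrary nondecreasing real function of at most `f` real numbers computed earlier
(inputs, constants, earlier gates).  Gates of the second kind (any number of them) compute an
arbitrary Boolean function of the answers to any number of threshold tests (value at least `c`);
NOT gates are the case of one test.  The output is the answer to a test.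

Put `l = log s + log n + 1` and `z = log (l + f) + 1` (logarithms of base two, rounded down), and
`R = K * l * (l + f) * z ^ 5 * 2 ^ (5 * b)`.  If `K * l * (z + b) ^ 3 ≤ k * b ^ 4` and `2 ≤ k ≤ n`,
where `b ≥ 1` is an arbitrary parameter, then there are a number `M` with
`(n - k) ^ 2 ≤ R * l * z ^ 2 * 2 ^ (4 * b) * M`, and even `(n - k) ^ 2 ≤ R * M` if `R ≤ n - k`, a
random chain `G 0 ≤ G 1 ≤ ... ≤ G M` of graphs without `k`-clique and two random graphs `H ≤ H'`,
`H` without `k`-clique and `H'` with a `k`-clique, such that, if the advantage of a circuit is the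
probability that it accepts `H'` minus the probability that it accepts `H`:

1. For EVERY circuit `C` whose size plus number of tests is at most `s`, if `X` is the number of
   steps of the chain at which the answers to the tests of the gates of the second kind change, then

     `M * advantage C ≤ 8 + 6 * E[X]`,   and always   `X ≤ d * (2 ^ t - 1)`

   if there are `t` gates of the second kind, each with at most `d` tests.
2. Conversely, for EVERY circuit `A` and every `t` with `2 ^ t ≤ n ^ 2` there is a circuit `C` with
   `t` gates of the second kind, each with one test, of size at most `2 * |A| + 10 * n ^ 4`, with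

     `advantage C ≥ advantage A * 2 ^ t / (2 * n ^ 2)`.

   Here `A` has gates of the first kind of fan-in at most `f'` and gates of the second kind with at
   most `d'` tests, `2 ≤ f'`, `2 * d' ≤ f'`, and the gates of the first kind of `C` have fan-in at
   most `f'`; for circuits of AND, OR and NOT gates `f' = 2`, `d' = 1`.

A circuit with advantage `α` decides correctly with probability `1 / 2 + α / 2` whether the random
graph which is `H` or `H'`, with probability `1 / 2` each, has a `k`-clique.

Consequences.
* A property of all circuits, for an NP-complete problem (`k = n / 2`): a circuit of polynomial size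
  with unlimited NOT gates that has advantage `α` changes the inputs of its NOT gates at
  `(α / 6 - o (1)) * M` steps of the random chain, and `M ≥ n ^ 2 / (log n) ^ (2 + o (1))`.
* How far this is from `NP ⊄ P/poly`: for polynomial size and `t` NOT gates the advantage is at most
  `2 ^ t * (log n) ^ (2 + o (1)) / n ^ 2`, and it is at least `2 ^ t / (2 * n ^ 2)` for some circuit
  of polynomial size if NP is contained in P/poly.  So only the factor `(log n) ^ (2 + o (1))` is
  missing, and it is missing already for `t = 0`: if all circuits of nondecreasing real gates of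
  fan-in two of polynomial size had advantage less than `1 / (2 * n ^ 2)`, then NP would not be
  contained in P/poly.
* `f ≤ l` (AND/OR gates, monotone real gates of fan-in two): size `2 ^ l` and `t` NOT gates give
  advantage at most `l ^ (2 + o (1)) * 2 ^ t / (n - k) ^ 2`.  So size `2 ^ l`, where
  `l ≤ (n - k) ^ (1 / 2 - o (1))` and `k ≥ l ^ (1 + o (1))`, needs
  `t ≥ 2 log (n - k) - (2 + o (1)) log l` NOT gates, even for randomised circuits with bounded error;
  for polynomial size this is `2 log (n - k) - O (log log n)`.
* With `b = ε log n`: for every `ε > 0` there are `c, C > 0` such that size `n ^ (c * k)` is needed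
  for all `k` with `C ≤ k ≤ n ^ (2 / 3 - ε)`, even with `(2 - 2 log_n k - O (ε)) log n` NOT gates if
  `k ≤ n ^ (1 / 2 - ε)`.  For monotone circuits (`t = 0`) such bounds were known for
  `k ≤ n ^ (1 / 3 - ε)` (Cavalar, Kumar, Rossman) and `k ≤ n ^ (1 / 2 - ε)` (de Rezende, Vinyals).
* Nondecreasing real gates of large fan-in do not help: with `f = n ^ (2 - 2 ε)`, `ε ≤ 2 / 3`, and
  `k = n / 2` the size is still `2 ^ (n ^ (ε - o (1)))`.

Method.  The clique problem contains, as a projection, the question whether some of `M` disjoint
blocks of variables contains a codeword of a sparse random linear code.  A block consists of the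
pairs of one vertex `v` and all vertices of a set `A`, where every vertex of `A` stands for a
symbol at a position; the star vertices `v` and the sets `A` are shared by many blocks.  The blocks
are filled one after the other with product noise; this is the chain.  The graph `H` is a random
graph of the chain, and `H'` is `H` with a random codeword in the next block.  For a graph `y` of the
chain, a monotone circuit `D` detects that the output is 1 or that the answers to the tests are not
those on `y`.  A spread lemma (Alweiss, Lovász, Wu, Zhang) and approximators by chains of closed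
families of small sets show that `D` accepts the noise with at least a third of the probability
(minus a small error) with which it accepts the word.  While the answers to the tests do not change
the circuit is monotone, so the output changes from 0 to 1 at most `1 + X` times.

For the converse let `x` be the number of inputs equal to 1 (the ordered pairs of adjacent
vertices), and `W = 2 ^ t`.  The circuit `C` accepts if `x ≥ (j + 1) * W`, or if `x ≥ j * W` and `A`
accepts.  Its sum over all `j` is the integer part of `x / W`, which is nondecreasing, plus the
output of `A`.  In the window `j * W ≤ x < (j + 1) * W` the negations of the inputs are nondecreasing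
functions of the inputs and of `t` negated tests, which compute `x - j * W` (slice functions of
Berkowitz, negations of Markov and Fischer).
-/

namespace Pool.Agent.Results.MP_8a52c3_lc.AverageCaseClique

open Pool.Agent.T9h34 (graphInput)
open Pool.Agent.T9h35.RW (Circuit)
open Pool.Agent.VC34 (numTests changes)
open Pool.Agent.T9h35.AV (advantage)

theorem result : ∃ K : ℕ, ∀ n k s f b : ℕ, 1 ≤ b → 2 ≤ k → k ≤ n →
    K * (Nat.log 2 s + Nat.log 2 n + 1) *
      (Nat.log 2 (Nat.log 2 s + Nat.log 2 n + 1 + f) + 1 + b) ^ 3 ≤ k * b ^ 4 →
    ∃ (M : ℕ) (Ω : Type) (_ : Fintype Ω) (ν : Ω → ℝ) (G : Ω → ℕ → SimpleGraph (Fin n))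
      (H H' : Ω → SimpleGraph (Fin n)),
      (n - k) ^ 2 ≤ K * (Nat.log 2 s + Nat.log 2 n + 1) ^ 2 * (Nat.log 2 s + Nat.log 2 n + 1 + f) *
        (Nat.log 2 (Nat.log 2 s + Nat.log 2 n + 1 + f) + 1) ^ 7 * 2 ^ (9 * b) * M ∧
      (K * (Nat.log 2 s + Nat.log 2 n + 1) * (Nat.log 2 s + Nat.log 2 n + 1 + f) *
        (Nat.log 2 (Nat.log 2 s + Nat.log 2 n + 1 + f) + 1) ^ 5 * 2 ^ (5 * b) ≤ n - k →
      (n - k) ^ 2 ≤ K * (Nat.log 2 s + Nat.log 2 n + 1) * (Nat.log 2 s + Nat.log 2 n + 1 + f) *
        (Nat.log 2 (Nat.log 2 s + Nat.log 2 n + 1 + f) + 1) ^ 5 * 2 ^ (5 * b) * M) ∧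
      (∀ ω, 0 ≤ ν ω) ∧ ∑ ω, ν ω = 1 ∧ (∀ ω i, G ω i ≤ G ω (i + 1)) ∧
      (∀ ω i, ¬ ∃ S, (G ω i).IsNClique k S) ∧
      (∀ ω, H ω ≤ H' ω ∧ (¬ ∃ S, (H ω).IsNClique k S) ∧ ∃ S, (H' ω).IsNClique k S) ∧
      (∀ (d : ℕ) (C : Circuit (Fin n × Fin n)), C.FanIn f d → C.size + numTests C ≤ s →
        (∀ ω, changes C M (G ω) + d ≤ d * 2 ^ C.numOther) ∧
        (M : ℝ) * advantage ν H H' C ≤ 8 + 6 * ∑ ω, ν ω * changes C M (G ω)) ∧
      ∀ (f' d' t : ℕ) (A : Circuit (Fin n × Fin n)), 2 ≤ f' → 2 * d' ≤ f' → A.FanIn f' d' →
        2 ^ t ≤ n ^ 2 → ∃ C : Circuit (Fin n × Fin n), C.FanIn f' 1 ∧ C.numOther = t ∧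
          C.size ≤ 2 * A.size + 10 * n ^ 4 ∧
          2 ^ t * advantage ν H H' A ≤ 2 * n ^ 2 * advantage ν H H' C :=
  Pool.Agent.T9h35.AV.average_case_pair

end Pool.Agent.Results.MP_8a52c3_lc.AverageCaseClique
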