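import Pool.Agent.T9h16.QI.Main2

/-!
# The k-clique problem on G(n, p) at the threshold

A circuit is a straight-line program whose gates compute real numbers.  Gates of the first kind
compute an arbitrary nondecreasing real function of at most `f` real numbers computed earlier
(inputs, constants, earlier gates).  Gates of the second kind compute an arbitrary Boolean function
of the answers to threshold tests (value at least `c`); NOT gates are the case of one test.  The
output is the answer to a test.  `numTests C` is the number `T` of tests of all gates, and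
`DepthLE C D` says that no path of the circuit contains more than `D` gates.

`G` is the random graph `G(n, p)`, `p = a / L`: the pairs of vertices get independent uniform labels
in `Fin L`, and the edges of `G = labelGraph lab a` are the pairs with a label `< a`.  Let
`M = n.choose k * p ^ (k.choose 2)` be the expected number of `k`-cliques of `G` and `v = √(1/p - 1)`.

(1) **Decision.**  Let `1 / 4 ≤ M ≤ 4` (then the probability that `G` has a `k`-clique is between
`0.22 - o(1)` and `0.98 + o(1)`) and `3 ≤ k ≤ n ^ (1 / 3 - δ)`, `n` large.  For every circuit `C`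
with at most `s - 2` gates and tests and depth `D`,
`f * log s * log (1 / p) ≤ δ ^ 2 / 10000 * (log n) ^ 2` and `f * log s ≤ n ^ (δ / 100)`, the event
that `C` accepts `G` and the event that `G` has a `k`-clique are independent up to
`z = 150 * 2 ^ T * (v * (k * D) ^ 2 * n ^ (δ - 1) + n ^ (-2)) + n ^ (- δ / 2)`.  So `C` does not
decide the `k`-clique problem on `G` better than a constant: the probability of an error is at least
`min (P[clique], P[no clique]) - z`.

(2) **Search.**  For every density `p` and `k ≤ n`, and `r` circuits as above (or one circuit with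
`r` outputs) with any decoding function: the probability that they find a `k`-clique of `G` is at
most `p ^ (k.choose 2)`, the probability that a fixed set is a clique, plus
`M * 9 * r * 2 ^ T * (v * (k * D) ^ 2 * n ^ (δ - 1) + n ^ (-2))`.

Consequences (by arithmetic from the theorem, not formalised).
* At the threshold `log (1 / p)` is about `2 * log (n / k) / (k - 1)`, so the size may be
  `n ^ (c * k)` (fan-in 2, `k` from a constant up to `n ^ (δ / 100)`), the conditions on depth and
  tests are `2 ^ T * v * (k * D) ^ 2 ≤ n ^ (1 - 2 * δ)`, for instance depth `n ^ (1 / 2 - 2 * δ)` for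
  constant `k`, or `(1 - 3 * δ) * log n` NOT gates and depth `n ^ (o(1))`.
* `k` about `2 * log₂ n`, `p` about `1 / 2`: deciding the clique number of a random graph.
* `k = n ^ b`, `b < 1 / 3`: `p = 1 - n ^ (- b + o(1))`, `v = n ^ (- b / 2 + o(1))`, size
  `2 ^ (n ^ c)`.  For `k ≥ n ^ (1 / 3)` the `k`-cliques come in clusters (a `k`-clique has about
  `k ^ 3 / n` neighbours), and the number of the `k`-cliques has no Poisson law.
* If `M` is about `log 2`, the error is at least `1 / 2 - o(1)`.

Method.  The library `Pool.Agent.T9h34.QE`, `Pool.Agent.T9h34.QI` bounds the probability that the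
answer of `C` changes when a clique is planted on a random set `S` of `k` vertices.  Let `X` be the
number of the `k`-cliques and `φ t = E[t ^ X; C accepts G]`.  Then
`φ' t = M * E[t ^ (X (G + K_S) - 1); C accepts G + K_S]` (size bias), and this is `M * φ t` up to a
small error, since `C` and its complement do not notice `K_S`, and `X (G + K_S) = X + 1` with high
probability.  So `(exp (- M * t) * φ t)'` is small, and `P[X = 0, C accepts G] = φ 0` is
`exp (- M) * P[C accepts G]` up to a small error.  The search version is the size-bias identity with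
a set which depends on the graph.
-/

namespace Pool.Agent.Results.MP_8a52c3_lc.CliqueAtThreshold

open Pool.Agent.T9h34 (graphInput)
open Pool.Agent.T9h35.RW (Circuit)
open Pool.Agent.VC34 (numTests)
open Pool.Agent.PC34 (prob labelGraph)
open Pool.Agent.HC34 (DepthLE)

theorem result :
    (∀ δ : ℝ, 0 < δ → δ ≤ 1 / 6 → ∃ n₀ : ℕ, ∀ n k f s D a L : ℕ, n₀ ≤ n →
      3 ≤ k → (k : ℝ) ≤ (n : ℝ) ^ (1 / 3 - δ) → 1 ≤ D → n ≤ s → 2 ≤ f → 1 ≤ a → a ≤ L →
      f * Real.log s * Real.log (L / a) ≤ δ ^ 2 / 10000 * Real.log n ^ 2 →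
      f * Real.log s ≤ (n : ℝ) ^ (δ / 100) →
      1 / 4 ≤ (n.choose k : ℝ) * ((a : ℝ) / L) ^ (k.choose 2) →
      (n.choose k : ℝ) * ((a : ℝ) / L) ^ (k.choose 2) ≤ 4 →
      ∀ (d : ℕ) (C : Circuit (Fin n × Fin n)), C.FanIn f d →
      C.size + numTests C + 2 ≤ s → DepthLE C D →
      |prob (fun lab : Sym2 (Fin n) → Fin L => C.eval (graphInput (labelGraph lab a)) = true ∧
          ∃ S : Finset (Fin n), (labelGraph lab a).IsNClique k S) -
        prob (fun lab : Sym2 (Fin n) → Fin L => C.eval (graphInput (labelGraph lab a)) = true) *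
          prob (fun lab : Sym2 (Fin n) → Fin L =>
            ∃ S : Finset (Fin n), (labelGraph lab a).IsNClique k S)| ≤
        150 * (2 ^ numTests C * (Real.sqrt (L / a - 1) * (((k : ℝ) * D) ^ 2 * (n : ℝ) ^ (δ - 1)) +
          (n : ℝ) ^ (-2 : ℝ))) + (n : ℝ) ^ (-δ / 2) ∧
      min (prob (fun lab : Sym2 (Fin n) → Fin L =>
            ∃ S : Finset (Fin n), (labelGraph lab a).IsNClique k S))
          (prob (fun lab : Sym2 (Fin n) → Fin L =>
            ¬ ∃ S : Finset (Fin n), (labelGraph lab a).IsNClique k S)) -
        (150 * (2 ^ numTests C * (Real.sqrt (L / a - 1) * (((k : ℝ) * D) ^ 2 * (n : ℝ) ^ (δ - 1)) +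
          (n : ℝ) ^ (-2 : ℝ))) + (n : ℝ) ^ (-δ / 2)) ≤
        prob (fun lab : Sym2 (Fin n) → Fin L =>
          ¬ (C.eval (graphInput (labelGraph lab a)) = true ↔
            ∃ S : Finset (Fin n), (labelGraph lab a).IsNClique k S))) ∧
    (∀ δ : ℝ, 0 < δ → δ ≤ 1 → ∃ n₀ : ℕ, ∀ n k f s D T r a L : ℕ, n₀ ≤ n →
      1 ≤ k → k ≤ n → 1 ≤ D → n ≤ s → 2 ≤ f → 1 ≤ a → a ≤ L →
      f * Real.log s * Real.log (L / a) ≤ δ ^ 2 / 10000 * Real.log n ^ 2 →
      f * Real.log s ≤ (n : ℝ) ^ (δ / 100) →
      ∀ (d : ℕ) (C : Fin r → Circuit (Fin n × Fin n)) (dec : (Fin r → Bool) → Finset (Fin n)),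
      (∀ i, (C i).FanIn f d) → (∀ i, (C i).size + numTests (C i) + 2 ≤ s) →
      (∀ i, DepthLE (C i) D) → (∀ i, numTests (C i) ≤ T) →
      prob (fun lab : Sym2 (Fin n) → Fin L => (labelGraph lab a).IsNClique k
        (dec (fun i => (C i).eval (graphInput (labelGraph lab a))))) ≤
        ((a : ℝ) / L) ^ k.choose 2 + (n.choose k : ℝ) * ((a : ℝ) / L) ^ (k.choose 2) *
        (9 * r * 2 ^ T * (Real.sqrt (L / a - 1) * (((k : ℝ) * D) ^ 2 * (n : ℝ) ^ (δ - 1)) +
          (n : ℝ) ^ (-2 : ℝ)))) := by
  refine ⟨?_, ?_⟩
  · intro δ h0 h1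
    obtain ⟨n₀, h⟩ := Pool.Agent.T9h16.QI.ind2 δ h0 h1
    refine ⟨n₀, ?_⟩
    intro n k f s D a L hn hk hkn hD hs hf ha haL hl hfl hM1 hM2 d C hC hCs hdep
    rw [Pool.Agent.VC34.numTests_eq] at hCs ⊢
    exact h n k f s D a L hn hk hkn hD hs hf ha haL hl hfl hM1 hM2 d C hC hCs hdep
  · intro δ h0 h1
    obtain ⟨n₀, h⟩ := Pool.Agent.T9h16.QI.searchCl δ h0 h1
    refine ⟨n₀, ?_⟩
    intro n k f s D T r a L hn hk hkn hD hs hf ha haL hl hfl d C dec hC hCs hdep hT
    refine h n k f s D T r a L hn hk hkn hD hs hf ha haL hl hfl d C dec hC (fun i => ?_) hdep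
      (fun i => ?_)
    · have := hCs i
      rw [Pool.Agent.VC34.numTests_eq] at this
      exact this
    · have := hT i
      rw [Pool.Agent.VC34.numTests_eq] at this
      exact this

end Pool.Agent.Results.MP_8a52c3_lc.CliqueAtThreshold
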