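import Pool.Agent.T9h34.QI.MainA

/-!
# Planted cliques in G(n, p), for every density p: detection and search

A circuit is a straight-line program whose gates compute real numbers.  Gates of the first kind
compute an arbitrary nondecreasing real function of at most `f` real numbers computed earlier
(inputs, constants, earlier gates).  Gates of the second kind compute an arbitrary Boolean function
of the answers to threshold tests (value at least `c`); NOT gates are the case of one test.  The
output is the answer to a test.  `numTests C` is the number of tests of all gates, and `DepthLE C D`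
says that no path of the circuit contains more than `D` gates.

`G` is the random graph `G(n, p)`, `p = a / L`: the pairs of vertices get independent uniform labels
in `Fin L`, and the edges of `G = labelGraph lab a` are the pairs with a label `< a`.  `S` is a
uniformly random set of `k` vertices.  The circuit has to distinguish `G` with all edges between
vertices of `S` added (`G + K_S`, a planted clique) from `G`; its advantage is the difference of the
probabilities that it accepts.  Put `v = √(1 / p - 1)`.

(1) Let `δ > 0`, `n` large, and let `C` be a circuit with at most `s` gates and tests, `T` tests and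
depth `D`, `f * log s * log (1 / p) ≤ δ ^ 2 / 10000 * (log n) ^ 2` and `f * log s ≤ n ^ (δ / 100)`.
Then the probability that it rejects `G` and accepts `G + K_S` is at most
`2 ^ T * (v * (k * D) ^ 2 * n ^ (δ - 1) + n ^ (-2))`; in particular its advantage is at most that.

(2) Counting the edges (no tests, depth `O(log n)`) has advantage at least `c * v * k ^ 2 / n`, for
`v * k ^ 2 ≤ n` and `(1 - p) * n ^ 2 ≥ 1`: the bound (1) is sharp for every density.

(3) If any circuit `A` has advantage `α`, then for every `T` with `2 ^ T ≤ √(p * (1 - p)) * n` there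
is a circuit with `T` tests (NOT gates), whose size and depth are those of `A` up to `10 * n ^ 4` and
`10 * log n`, with advantage at least `c * α ^ 2 * 2 ^ T / (√(p * (1 - p)) * n)`.

(4) Search: take `r` circuits as in (1).  The probability that the answer of one of them on `G + K_S`
differs from its answer on `G` is at most `9 * r` times the bound of (1); hence the probability that
any function of their answers on `G + K_S` (for instance a name of a vertex written in binary by
`log n` circuits) is a vertex of `S` is at most `k / n` plus that.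

Consequences (by arithmetic from the theorem, not formalised).
* `p = 1 / 2`: size `n ^ (c * log n)`.  For `p` bounded away from `1` size
  `n ^ (c * log n / log (1 / p))`, which is `n ^ (c' * ω)` for the typical clique number `ω` of
  `G(n, p)` (optimal up to `c'`, by exhaustive search); for `1 - p ≤ n ^ (-c)` (complements of sparse
  graphs: planted independent sets) size `2 ^ (n ^ c')`.
* `T = 0`, `v * k ^ 2 ≤ n`, depth `n ^ (o(1))`, `f * log s * log (1 / p) = o((log n) ^ 2)`,
  `f * log s = n ^ (o(1))`: the best possible advantage is `v * k ^ 2 * n ^ (-1 + o(1))`; counting the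
  edges is optimal.
* `p = 1 - n ^ (-1 / 2 + o(1))`, `k = √n + 1`: cliques with more than `√n` vertices at their natural
  density; depth `n ^ (o(1))` and size `2 ^ (n ^ (o(1)))` give advantage at most
  `2 ^ T * n ^ (-1 / 4 + o(1))`.
* `p = 1 / 2`, `k = (log n) ^ 2`: circuits of polynomial size and depth `n ^ (o(1))` with
  `(1 - 2 * e) * log n` NOT gates have advantage at most `n ^ (-e)`; by (3) the same bound for `log n`
  NOT gates (and polylogarithmic depth) would show that NP has no polynomial size circuits of
  polylogarithmic depth.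

Method.  Couple `G` with the planted clique below `G` with a few random stars, gate by gate.  For
every gate and every set `T ⊆ S` of the size needed by its inputs there is a set with at most `c`
vertices of `S` which suffices, after a block of random stars (packets) and of random leaves at the
vertices of `S` (marks) is added, unless there is a critical pattern: edges `F` between more than `c`
vertices of `S` and marks `A`, none of which can be omitted even after the next block is added.
`F` has a spanning star forest; the other edges of `F` are missing in `G` and are absorbed by `G`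
(change of measure, factor `(1 - p) / p` each); the centres and the leaves of the stars can be
exchanged with the packets and their leaves, so a random pattern is the only accepted one of
`(m + 1) ^ j` equally likely ones; for the output it also has to decide between acceptance and
rejection, which gives another factor, the total variation distance made by a block.  The `q` blocks
of a gate are the steps of a walk that removes edges and marks.  One star with `R` leaves has total
variation distance at most `2 * v * R / n`.  For (4) use (1)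
for the circuits and their complements; their answers on `G` are independent of `S`.
-/

namespace Pool.Agent.Results.MP_8a52c3_lc.PlantedCliqueSearch

open Pool.Agent.T9h34 (graphInput)
open Pool.Agent.T9h35.RW (Circuit)
open Pool.Agent.VC34 (numTests)
open Pool.Agent.PC34 (withClique prob labelGraph)
open Pool.Agent.HC34 (DepthLE)

theorem result :
    (∀ δ : ℝ, 0 < δ → δ ≤ 1 → ∃ n₀ : ℕ, ∀ n k f s D a L : ℕ, n₀ ≤ n →
      1 ≤ k → 1 ≤ D → n ≤ s → 2 ≤ f → 1 ≤ a → a ≤ L →
      f * Real.log s * Real.log (L / a) ≤ δ ^ 2 / 10000 * Real.log n ^ 2 →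
      f * Real.log s ≤ (n : ℝ) ^ (δ / 100) →
      ∀ (d : ℕ) (C : Circuit (Fin n × Fin n)), C.FanIn f d → C.size + numTests C ≤ s →
      DepthLE C D →
      prob (fun x : (Sym2 (Fin n) → Fin L) × {S : Finset (Fin n) // S.card = k} =>
        C.eval (graphInput (withClique (labelGraph x.1 a) x.2.1)) = true ∧
          C.eval (graphInput (labelGraph x.1 a)) = false) ≤
        2 ^ numTests C * (Real.sqrt (L / a - 1) * (((k : ℝ) * D) ^ 2 * (n : ℝ) ^ (δ - 1)) +
          (n : ℝ) ^ (-2 : ℝ))) ∧
    (∃ c : ℝ, 0 < c ∧ ∀ n k a L : ℕ, 2 ≤ k → k ≤ n → 1 ≤ a → a < L →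
      L ≤ (L - a) * n ^ 2 → (k : ℝ) ^ 2 * Real.sqrt ((L : ℝ) / a - 1) ≤ n →
      ∃ C : Circuit (Fin n × Fin n),
        C.FanIn 2 0 ∧ numTests C = 0 ∧ C.size ≤ 2 * n ^ 2 ∧ DepthLE C (2 * Nat.log 2 n + 2) ∧
        prob (fun lab : Sym2 (Fin n) → Fin L => C.eval (graphInput (labelGraph lab a)) = true) +
          c * (Real.sqrt (L / a - 1) * (k ^ 2 / n)) ≤
        prob (fun x : (Sym2 (Fin n) → Fin L) × {S : Finset (Fin n) // S.card = k} =>
          C.eval (graphInput (withClique (labelGraph x.1 a) x.2.1)) = true)) ∧
    (∃ c : ℝ, 0 < c ∧ ∀ (n k f d DA T a L : ℕ) (A : Circuit (Fin n × Fin n)) (α : ℝ), 2 ≤ n →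
      k ≤ n → (2 : ℝ) ^ T ≤ Real.sqrt ((a : ℝ) / L * (1 - (a : ℝ) / L)) * n → 2 ≤ f →
      A.FanIn f d → 2 * d ≤ f → DepthLE A DA → 1 ≤ a → a ≤ L → 0 < α → α ≤ 1 →
      prob (fun lab : Sym2 (Fin n) → Fin L => A.eval (graphInput (labelGraph lab a)) = true) + α ≤
      prob (fun x : (Sym2 (Fin n) → Fin L) × {S : Finset (Fin n) // S.card = k} =>
        A.eval (graphInput (withClique (labelGraph x.1 a) x.2.1)) = true) →
      ∃ C : Circuit (Fin n × Fin n), C.FanIn f 1 ∧ numTests C = T ∧
        C.size ≤ 2 * A.size + 10 * n ^ 4 ∧ DepthLE C (DA + 10 * Nat.log 2 n + 10) ∧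
        prob (fun lab : Sym2 (Fin n) → Fin L => C.eval (graphInput (labelGraph lab a)) = true) +
          c * α ^ 2 * (2 ^ T / (Real.sqrt ((a : ℝ) / L * (1 - (a : ℝ) / L)) * n)) ≤
        prob (fun x : (Sym2 (Fin n) → Fin L) × {S : Finset (Fin n) // S.card = k} =>
          C.eval (graphInput (withClique (labelGraph x.1 a) x.2.1)) = true)) ∧
    (∀ δ : ℝ, 0 < δ → δ ≤ 1 → ∃ n₀ : ℕ, ∀ n k f s D T r a L : ℕ, n₀ ≤ n →
      1 ≤ k → k ≤ n → 1 ≤ D → n ≤ s → 2 ≤ f → 1 ≤ a → a ≤ L →
      f * Real.log s * Real.log (L / a) ≤ δ ^ 2 / 10000 * Real.log n ^ 2 →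
      f * Real.log s ≤ (n : ℝ) ^ (δ / 100) →
      ∀ (d : ℕ) (C : Fin r → Circuit (Fin n × Fin n)), (∀ i, (C i).FanIn f d) →
      (∀ i, (C i).size + numTests (C i) + 2 ≤ s) → (∀ i, DepthLE (C i) D) →
      (∀ i, numTests (C i) ≤ T) →
      prob (fun x : (Sym2 (Fin n) → Fin L) × {S : Finset (Fin n) // S.card = k} =>
        ∃ i, (C i).eval (graphInput (withClique (labelGraph x.1 a) x.2.1)) ≠
          (C i).eval (graphInput (labelGraph x.1 a))) ≤
        9 * r * 2 ^ T * (Real.sqrt (L / a - 1) * (((k : ℝ) * D) ^ 2 * (n : ℝ) ^ (δ - 1)) +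
          (n : ℝ) ^ (-2 : ℝ)) ∧
      ∀ dec : (Fin r → Bool) → Fin n,
        prob (fun x : (Sym2 (Fin n) → Fin L) × {S : Finset (Fin n) // S.card = k} =>
          dec (fun i => (C i).eval (graphInput (withClique (labelGraph x.1 a) x.2.1))) ∈ x.2.1) ≤
        (k : ℝ) / n +
          9 * r * 2 ^ T * (Real.sqrt (L / a - 1) * (((k : ℝ) * D) ^ 2 * (n : ℝ) ^ (δ - 1)) +
            (n : ℝ) ^ (-2 : ℝ))) := by
  refine ⟨?_, ?_, ?_, ?_⟩
  · intro δ h0 h1
    obtain ⟨n₀, h⟩ := Pool.Agent.T9h34.QI.finalP δ h0 h1
    refine ⟨n₀, ?_⟩
    intro n k f s D a L hn hk hD hs hf ha haL hl hfl d C hC hCs hdep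
    rw [Pool.Agent.VC34.numTests_eq] at hCs ⊢
    exact h n k f s D a L hn hk hD hs hf ha haL hl hfl d C hC hCs hdep
  · obtain ⟨c, hc, h⟩ := Pool.Agent.T9h34.QE.countingE
    refine ⟨c, hc, ?_⟩
    intro n k a L hk hkn ha haL hL hkL
    obtain ⟨C, h1, h2, h3, h4, h5⟩ := h n k a L hk hkn ha haL hL hkL
    refine ⟨C, h1, ?_, h3, h4, h5⟩
    rw [Pool.Agent.VC34.numTests_eq]
    exact h2
  · obtain ⟨c, hc, h⟩ := Pool.Agent.T9h34.QE.slicesE
    refine ⟨c, hc, ?_⟩
    intro n k f d DA T a L A α hn hk hT hf hA hd hDA ha haL hα0 hα1 hadv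
    obtain ⟨C, h1, h2, h3, h4, h5⟩ := h n k f d DA T a L A α hn hk hT hf hA hd hDA ha haL hα0
      hα1 hadv
    refine ⟨C, h1, ?_, h3, h4, h5⟩
    rw [Pool.Agent.VC34.numTests_eq]
    exact h2
  · intro δ h0 h1
    obtain ⟨n₁, hm⟩ := Pool.Agent.T9h34.QI.multiA δ h0 h1
    obtain ⟨n₂, hs⟩ := Pool.Agent.T9h34.QI.searchA δ h0 h1
    refine ⟨max n₁ n₂, ?_⟩
    intro n k f s D T r a L hn hk hkn hD hns hf ha haL hl hfl d C hC hCs hdep hT
    have hn1 : n₁ ≤ n := (le_max_left _ _).trans hn
    have hn2 : n₂ ≤ n := (le_max_right _ _).trans hn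
    simp only [Pool.Agent.VC34.numTests_eq] at hCs hT
    refine ⟨hm n k f s D T r a L hn1 hk hD hns hf ha haL hl hfl d C hC hCs hdep hT, ?_⟩
    intro dec
    exact hs n k f s D T r a L hn2 hk hkn hD hns hf ha haL hl hfl d C dec hC hCs hdep hT

end Pool.Agent.Results.MP_8a52c3_lc.PlantedCliqueSearch
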