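import Pool.Agent.T9h16.Rand4.Fin4

/-!
# Refuting random `k`-SAT with few negated facts and with one NOT gate

A circuit gets a set `F` of `k`-clauses over `n` variables, one input bit for each of the `M`
possible clauses.  It is a refuter if it rejects every satisfiable set.  A random formula is a
uniformly random set `F` of `m` clauses.

* De Morgan circuits (AND, OR, literals `c ∈ F` and negated facts `c ∉ F`) compute everything.  For
  constant `k ≥ 3` and `m ≤ n ^ (k - 1 - ε)` no refuter of size `2 ^ (n ^ δ)` accepts a noticeable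
  part of the random formulas by means of at most `n ^ δ` negated facts, not even with `n ^ δ`
  nondeterministic guesses.
* For `m ≥ C n ^ (k - 1)` polynomial size and no negated facts are enough.
* With one NOT gate everything changes: for every constant `k ≥ 3` polynomial size and one NOT gate
  are enough for `n ^ (k - 3 / 2 + ε) ≤ m`, where circuits without NOT gates need exponential size
  as long as `m ≤ n ^ (k - 1 - ε)`.  And on random formulas one NOT gate is as good as any number of
  them.
-/

set_option autoImplicit false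

namespace Pool.Agent.Results.MP_8a52c3_lc.RandomSatRefutation

open Pool.Agent.T9h16.Rand (Clause Sat Satisfiable)
open scoped Classical

/-- The Boolean circuit `C` (AND, OR and NOT gates) accepts the set `F` of clauses: its value is
true if exactly the input variables in `F` are true. -/
def Accepts {n k : ℕ} (C : Pool.Agent.LN.Circuit (Clause n k)) (F : Set (Clause n k)) : Prop :=
  C.eval (fun c => decide (c ∈ F)) = true

/-- There is a constant `K` such that for all `k ≥ 2`, `n`, `m`, with `M` the number of all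
`k`-clauses over `n` variables:

1. (few negated facts) let `ℓ = log₂ (n + s + q (M + 1) ^ r) + 1` (about the maximum of `log₂ s`,
   `log₂ q`, `r log₂ M` and `log₂ n`), `Y = k ^ 2 ℓ ^ 2 (log₂ n + 1) (log₂ ℓ + 1) ^ 2` and
   `m (K k) ^ k Y ^ (k - 2) (n + Y ^ 2) ≤ n ^ k`.  Take `q` de Morgan circuits with at most `s` gates
   which reject every satisfiable set of clauses.  Then at most a fraction `1 / n` of the sets `F`
   of `m` clauses is accepted by one of them with at most `r` negated facts, that is, even if all its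
   literals `c ∉ F` are set to false but those for `c` in a set `Q` with at most `r` elements (any
   such `Q`, it may depend on `F`);
2. (no negated facts) if `n ≥ 4`, `k - 2 ≤ t ≤ n / 2` and `(K k) ^ (2 k) n ^ (k - 1) ≤ m t ^ (k - 2)`,
   then some de Morgan circuit with at most `2 ^ t (n + 1) ^ (K k)` gates rejects every satisfiable
   set and accepts, without negated facts, all but a fraction `2 ^ (- n)` of the sets of `m` clauses;
3. (one NOT gate) if `k ≥ 3`, `j ≥ 1`, `D ≥ 1`, `G = D (K (j + k)) ^ (K (j + k)) ≤ n`,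
   `k ^ k m ≤ n ^ (k - 1)` and `G ^ j n ^ ((2 k - 3) j + 2) ≤ m ^ (2 j)` (that is,
   `G ^ (1 / 2) n ^ (k - 3 / 2 + 1 / j) ≤ m`), then some circuit with AND, OR and NOT gates, at most
   one of them a NOT gate, and with at most `(n + 1) ^ (K (j + k))` gates rejects every satisfiable
   set and accepts all but a fraction `1 / D` of the sets of `m` clauses;
4. (more NOT gates) for every circuit `C` with AND, OR and NOT gates there is a circuit `C'` with at
   most one NOT gate and at most `2 size + 10 (M + 1) ^ 3` gates which accepts exactly those sets of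
   `m` clauses which `C` accepts, and no other sets. -/
theorem result : ∃ K : ℕ, ∀ k n m : ℕ, 2 ≤ k →
    (∀ s q r ℓ Y : ℕ, ℓ = Nat.log 2 (n + s + q * (Nat.card (Clause n k) + 1) ^ r) + 1 →
      Y = k ^ 2 * ℓ ^ 2 * (Nat.log 2 n + 1) * (Nat.log 2 ℓ + 1) ^ 2 →
      m * ((K * k) ^ k * (Y ^ (k - 2) * (n + Y ^ 2))) ≤ n ^ k →
      ∀ C : Fin q → Pool.Agent.T9h16.Neg.Circuit (Clause n k),
        (∀ j, (C j).size ≤ s ∧ ∀ F, Satisfiable F → ¬ (C j).Accepts F) →
        {F : Set (Clause n k) | F.ncard = m ∧ ∃ j, ∃ Q : Set (Clause n k), Q.ncard ≤ r ∧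
          (C j).AcceptsUsing F Q}.ncard * n ≤ (Nat.card (Clause n k)).choose m) ∧
    (∀ t : ℕ, 4 ≤ n → k - 2 ≤ t → 2 * t ≤ n →
      (K * k) ^ (2 * k) * n ^ (k - 1) ≤ m * t ^ (k - 2) →
      ∃ C : Pool.Agent.T9h16.Neg.Circuit (Clause n k), C.size ≤ 2 ^ t * (n + 1) ^ (K * k) ∧
        (∀ F, Satisfiable F → ¬ C.Accepts F) ∧
        {F : Set (Clause n k) | F.ncard = m ∧ ¬ C.AcceptsUsing F ∅}.ncard * 2 ^ n ≤
          (Nat.card (Clause n k)).choose m) ∧
    (∀ j D G : ℕ, 3 ≤ k → 1 ≤ j → 1 ≤ D → G = D * (K * (j + k)) ^ (K * (j + k)) → G ≤ n →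
      k ^ k * m ≤ n ^ (k - 1) → G ^ j * n ^ ((2 * k - 3) * j + 2) ≤ m ^ (2 * j) →
      ∃ C : Pool.Agent.LN.Circuit (Clause n k), C.nots ≤ 1 ∧ C.size ≤ (n + 1) ^ (K * (j + k)) ∧
        (∀ F, Satisfiable F → ¬ Accepts C F) ∧
        {F : Set (Clause n k) | F.ncard = m ∧ ¬ Accepts C F}.ncard * D ≤
          (Nat.card (Clause n k)).choose m) ∧
    ∀ C : Pool.Agent.LN.Circuit (Clause n k), ∃ C' : Pool.Agent.LN.Circuit (Clause n k),
      C'.nots ≤ 1 ∧ C'.size ≤ 2 * C.size + 10 * (Nat.card (Clause n k) + 1) ^ 3 ∧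
      ∀ F : Set (Clause n k), Accepts C' F ↔ Accepts C F ∧ F.ncard = m := by
  refine ⟨100000000, fun k n m hk => ⟨?_, ?_, ?_, ?_⟩⟩
  · intro s q r ℓ Y hℓ hY hm C hC
    exact Pool.Agent.T9h16.Rand.final1 le_rfl hk hℓ hY hm C hC
  · intro t hn hkt ht h
    exact Pool.Agent.T9h16.Rand.final2 (K := 100000000) (by norm_num) hk hn hkt ht h
  · intro j D G hk3 hj hD hG hn hmn hm
    exact Pool.Agent.T9h16.Rand.one_not4 (K := 100000000) le_rfl hk3 hj hD hG hn hmn hm
  · intro C
    exact Pool.Agent.T9h16.Rand.final3 m C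

end Pool.Agent.Results.MP_8a52c3_lc.RandomSatRefutation
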